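import Mathlib
import Pool.Agent.Lib.GHDPoly.Upper

/-!
# Completions of Gap Hamming Distance of small VC dimension, for all `n > 2 k`

For all `n > 2 k` the partial matrix `GHD_k^n` has a total completion with VC dimension at most
`240 (1 + k ^ 2 / n) log (2 + min (n / k) k)`.
-/

set_option autoImplicit false

namespace Pool.Agent.Results.MP_8ab495_co.BlockUpper

/-- For all `n > 2 k` there is a total completion `A` of `GHD_k^n` such that every set `S` of
columns shattered by the rows of `A` has at most `240 (1 + k ^ 2 / n) log (2 + min (n / k) k)`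
elements (for `k = 0` the quotient `n / k` is read as `0`). -/
theorem result (n k : ℕ) (hkn : 2 * k < n) :
    ∃ A : (Fin n → Bool) → (Fin n → Bool) → Bool,
      (∀ x y : Fin n → Bool, hammingDist x y ≤ k → A x y = true) ∧
      (∀ x y : Fin n → Bool, n - k ≤ hammingDist x y → A x y = false) ∧
      ∀ S : Finset (Fin n → Bool),
        (∀ T ⊆ S, ∃ x : Fin n → Bool, ∀ y ∈ S, (A x y = true ↔ y ∈ T)) →
          (S.card : ℝ) ≤ 240 * (1 + (k : ℝ) ^ 2 / n) * Real.log (2 + min ((n : ℝ) / k) k) :=
  GHDUpper.upper n k hkn

end Pool.Agent.Results.MP_8ab495_co.BlockUpper
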