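import Mathlib
import Pool.Agent.Lib.GHDRace.Fin

/-!
# Completions of Gap Hamming Distance with few distinct rows or few distinct columns

Every total completion `A` of `GHD_k^n`, `n > 2 k`, with `R` distinct rows and `T` distinct columns
has a shattered set `S` of columns with `k ≤ 3300 * 8 ^ |S| * (log (2 R)) ^ 4` and
`k ≤ 96 * (|S| + 1) * (1 + log (2 T)) ^ 4`.
-/

set_option autoImplicit false

namespace Pool.Agent.Results.MP_8ab495_co.FewRowsOrColumns

/-- The VC dimension of a total completion of `GHD_k^n` with `R` distinct rows and `T` distinct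
columns is at least `log₂ (k / (3300 log (2R) ^ 4)) / 3` and at least
`k / (96 (1 + log (2T)) ^ 4) - 1`. -/
theorem result (n k : ℕ) (hkn : 2 * k < n) (A : (Fin n → Bool) → (Fin n → Bool) → Bool)
    (hnear : ∀ x y : Fin n → Bool, hammingDist x y ≤ k → A x y = true)
    (hfar : ∀ x y : Fin n → Bool, n - k ≤ hammingDist x y → A x y = false)
    (R T : ℕ) (hR : R = (Finset.univ.image A).card)
    (hT : T = (Finset.univ.image fun (y x : Fin n → Bool) => A x y).card) :
    ∃ S : Finset (Fin n → Bool),
      (∀ B ⊆ S, ∃ x : Fin n → Bool, ∀ y ∈ S, (A x y = true ↔ y ∈ B)) ∧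
      (k : ℝ) ≤ 3300 * 8 ^ S.card * Real.log (2 * R) ^ 4 ∧
      (k : ℝ) ≤ 96 * (S.card + 1) * (1 + Real.log (2 * T)) ^ 4 := by
  classical
  obtain ⟨S, hS, hmax⟩ := Finset.exists_max_image
    (Finset.univ.filter fun S : Finset (Fin n → Bool) => GHDRace.Shat A S)
    (fun S => S.card) ⟨∅, by
      simp only [Finset.mem_filter, Finset.mem_univ, true_and, GHDRace.Shat]
      intro B _
      exact ⟨fun _ => true, by simp⟩⟩
  have hS' : GHDRace.Shat A S := (Finset.mem_filter.1 hS).2
  have h := (GHDRace.final n k hkn A hnear hfar R T hR hT).2 S.card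
    (fun S' hS'' => hmax S' (Finset.mem_filter.2 ⟨Finset.mem_univ _, hS''⟩))
  exact ⟨S, hS', h.2, h.1⟩

end Pool.Agent.Results.MP_8ab495_co.FewRowsOrColumns
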