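import Mathlib
import Pool.Agent.Lib.GHDSharp.Top

/-!
# Completions of Gap Hamming Distance: VC dimension at least `k ^ 2 / n` up to logarithms

For all `n > 2 k` every total completion `A` of `GHD_k^n` satisfies
`k ^ 2 ≤ 10 ^ 12 * VC(A) * n * log n * (1 + log (n / k)) ^ 4`.
-/

set_option autoImplicit false

namespace Pool.Agent.Results.MP_8ab495_co.QuadraticOverN

/-- Let `n > 2 k` and let `A` be a total completion of `GHD_k^n`.  There is a set `S` of columns
shattered by the rows of `A` with `k ^ 2 ≤ 10 ^ 12 * |S| * n * log n * (1 + log (n / k)) ^ 4`. -/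
theorem result (n k : ℕ) (hkn : 2 * k < n) (A : (Fin n → Bool) → (Fin n → Bool) → Bool)
    (hnear : ∀ x y : Fin n → Bool, hammingDist x y ≤ k → A x y = true)
    (hfar : ∀ x y : Fin n → Bool, n - k ≤ hammingDist x y → A x y = false) :
    ∃ S : Finset (Fin n → Bool),
      (∀ T ⊆ S, ∃ x : Fin n → Bool, ∀ y ∈ S, (A x y = true ↔ y ∈ T)) ∧
      (k : ℝ) ^ 2 ≤ 10 ^ 12 * S.card * n * Real.log n * (1 + Real.log (n / k)) ^ 4 :=
  GHDSharp.main n k hkn A hnear hfar

end Pool.Agent.Results.MP_8ab495_co.QuadraticOverN
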