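import Mathlib
import Pool.Agent.Lib.GHDXor.Chain

/-!
# Completions of Gap Hamming Distance with many translates of a row among their rows

Let `n > 2 k`, let `A` be a total completion of `GHD_k^n` and suppose that at least `2 ^ (n - c)` of
the translates `y ↦ r (v + y)` of some row `r` of `A` are again rows of `A`. Then
`k - c ≤ VC(A) * (log₂ k + 6)`.
-/

set_option autoImplicit false

namespace Pool.Agent.Results.MP_8ab495_co.TranslationInvariant

/-- If at least `2 ^ (n - c)` translates of one row of a total completion `A` of `GHD_k^n` are rows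
of `A`, then the VC dimension of `A` is at least `(k - c) / (log₂ k + 6)`. -/
theorem result (n k c : ℕ) (hkn : 2 * k < n) (A : (Fin n → Bool) → (Fin n → Bool) → Bool)
    (hnear : ∀ x y : Fin n → Bool, hammingDist x y ≤ k → A x y = true)
    (hfar : ∀ x y : Fin n → Bool, n - k ≤ hammingDist x y → A x y = false)
    (x₀ : Fin n → Bool)
    (hrow : 2 ^ n ≤ 2 ^ c * (Finset.univ.filter fun v : Fin n → Bool =>
      ∃ x : Fin n → Bool, ∀ y : Fin n → Bool, A x y = A x₀ fun i => xor (v i) (y i)).card) :
    ∃ S : Finset (Fin n → Bool),
      (∀ B ⊆ S, ∃ x : Fin n → Bool, ∀ y ∈ S, (A x y = true ↔ y ∈ B)) ∧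
      (k : ℝ) - c ≤ S.card * (Real.logb 2 k + 6) := by
  classical
  obtain ⟨S, hS, hmax⟩ := Finset.exists_max_image
    (Finset.univ.filter fun S : Finset (Fin n → Bool) => GHDRace.Shat A S)
    (fun S => S.card) ⟨∅, by
      simp only [Finset.mem_filter, Finset.mem_univ, true_and, GHDRace.Shat]
      intro B _
      exact ⟨fun _ => true, by simp⟩⟩
  have hS' : GHDRace.Shat A S := (Finset.mem_filter.1 hS).2
  refine ⟨S, hS', ?_⟩
  have hd : ∀ T : Finset (Fin n → Bool), GHDRace.Shat A T → T.card ≤ S.card := fun T hT =>
    hmax T (Finset.mem_filter.2 ⟨Finset.mem_univ _, hT⟩)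
  -- the column `x₀` is shattered
  have hd1 : 1 ≤ S.card := by
    have h1 : GHDRace.Shat A ({x₀} : Finset (Fin n → Bool)) := by
      intro B hB
      rcases Finset.subset_singleton_iff.1 hB with rfl | rfl
      · refine ⟨fun i => !(x₀ i), fun y hy => ?_⟩
        rw [Finset.mem_singleton.1 hy, hfar]
        · simp
        · have h2 : hammingDist (fun i => !(x₀ i)) x₀ = n := by
            unfold hammingDist
            rw [Finset.filter_true_of_mem]
            · simp
            · intro i _
              exact Bool.not_ne_self _
          rw [h2]; omega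
      · refine ⟨x₀, fun y hy => ?_⟩
        rw [Finset.mem_singleton.1 hy, hnear _ _ (by simp)]
        simp
    simpa using hd _ h1
  -- coordinates
  let tb : (Fin n → ZMod 2) → (Fin n → Bool) := fun z i => decide (z i = 1)
  let e : (Fin n → Bool) → (Fin n → ZMod 2) := fun v i => if xor (v i) (x₀ i) then 1 else 0
  have he : Function.Injective e := by
    intro v w hvw
    funext i
    have h1 := congrFun hvw i
    simp only [e] at h1
    cases h2 : v i <;> cases h3 : w i <;> cases h4 : x₀ i <;> simp_all
  have htb : Function.Injective tb := by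
    intro v w hvw
    funext i
    have h1 := congrFun hvw i
    simp only [tb] at h1
    revert h1
    generalize v i = p
    generalize w i = q
    revert p q
    decide
  let f : (Fin n → ZMod 2) → Bool := fun z => A x₀ fun i => xor (x₀ i) (decide (z i = 1))
  have hdist : ∀ z : Fin n → ZMod 2, hammingDist x₀ (fun i => xor (x₀ i) (decide (z i = 1))) =
      (Finset.univ.filter fun i => z i ≠ 0).card := by
    intro z
    unfold hammingDist
    congr 1
    ext i
    simp only [Finset.mem_filter, Finset.mem_univ, true_and]
    generalize z i = p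
    generalize x₀ i = q
    revert p q
    decide
  let V : Finset (Fin n → Bool) := Finset.univ.filter fun v : Fin n → Bool =>
    ∃ x : Fin n → Bool, ∀ y : Fin n → Bool, A x y = A x₀ fun i => xor (v i) (y i)
  have hval : ∀ (v : Fin n → Bool) (y : Fin n → ZMod 2),
      f (e v + y) = A x₀ fun i => xor (v i) (tb y i) := by
    intro v y
    simp only [f, e, tb, Pi.add_apply]
    congr 1
    funext i
    exact GHDXor.xor_aux (v i) (x₀ i) (y i)
  refine GHDXor.main k c S.card hkn f ?_ ?_ (V.image e) ?_ hd1 ?_
  · intro z hz
    exact hnear _ _ (by rw [hdist]; exact hz)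
  · intro z hz
    exact hfar _ _ (by rw [hdist]; exact hz)
  · rw [Finset.card_image_of_injective _ he]
    convert hrow using 4
  · intro T hT
    have h1 : GHDRace.Shat A (T.image tb) := by
      intro B hB
      obtain ⟨v, hv, hv2⟩ := hT (T.filter fun y => tb y ∈ B) (Finset.filter_subset _ _)
      obtain ⟨v', hv', rfl⟩ := Finset.mem_image.1 hv
      obtain ⟨x, hx⟩ := (Finset.mem_filter.1 hv').2
      refine ⟨x, fun y hy => ?_⟩
      obtain ⟨y', hy', rfl⟩ := Finset.mem_image.1 hy
      rw [hx, ← hval, hv2 y' hy']
      simp [hy']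
    have h2 := hd _ h1
    rwa [Finset.card_image_of_injective _ htb] at h2

end Pool.Agent.Results.MP_8ab495_co.TranslationInvariant
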